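import Mathlib
import Pool.Agent.TH932.S2.G.Crit

set_option autoImplicit false

/-!
# The parities of the trajectory of `3` under the `7n+1` map

The trajectory of `3` is divergent if and only if its parities have many different blocks on every
scale. (The general theorem on block complexity is in the library, `Pool.Agent.TH932.S2.G`.)
-/

namespace Pool.Agent.Results.MP_574b9b_nt.ParityBlocks

open Filter Topology Pool.Agent.TH932.S2.G

/-- the map of the problem -/
def g (n : ℕ) : ℕ := if n % 2 = 0 then n / 2 else 7 * n + 1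

/-- the shortcut map: two steps of `g` at the odd numbers -/
def T (n : ℕ) : ℕ := if n % 2 = 0 then n / 2 else (7 * n + 1) / 2

/-- the number of different blocks of `N` consecutive parities in the trajectory of `n` under `T` -/
noncomputable def blocks (n N : ℕ) : ℕ :=
  (Set.range fun i : ℕ => fun j : Fin N => T^[i + j] n % 2).ncard

/-- the number of different blocks of `N` consecutive parities among the first `h` terms of the
trajectory of `n` under `T` -/
noncomputable def blocksUpTo (n h N : ℕ) : ℕ :=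
  ((fun i : ℕ => fun j : Fin N => T^[i + j] n % 2) '' {i | i + N ≤ h}).ncard

/-- the map `T` on the integers -/
def Ti (x : ℤ) : ℤ := if x % 2 = 0 then x / 2 else (7 * x + 1) / 2

/-- exponents -/
def dl (a : ZMod 2) : ℕ := if a = 0 then 0 else 1

/-- constant terms -/
def bt (a : ZMod 2) : ℤ := if a = 0 then 0 else 1

lemma hG (x : ℤ) : ((2 : ℕ) : ℤ) * Ti x = ((7 : ℕ) : ℤ) ^ dl (x : ZMod 2) * x + bt (x : ZMod 2) := by
  have e0 : (x : ZMod 2) = 0 ↔ x % 2 = 0 := by
    rw [ZMod.intCast_zmod_eq_zero_iff_dvd]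
    omega
  unfold Ti dl bt
  rcases (by omega : x % 2 = 0 ∨ x % 2 = 1) with h | h
  · rw [if_pos h, if_pos (e0.2 h), if_pos (e0.2 h)]
    push_cast
    omega
  · rw [if_neg (by omega), if_neg (by rw [e0]; omega), if_neg (by rw [e0]; omega)]
    push_cast
    omega

lemma Ti_cast (n : ℕ) : Ti (n : ℤ) = ((T n : ℕ) : ℤ) := by
  unfold Ti T
  split_ifs with h1 h2 h2 <;> push_cast <;> omega

lemma Ti_iter (n k : ℕ) : Ti^[k] (n : ℤ) = ((T^[k] n : ℕ) : ℤ) := by
  induction k with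
  | zero => rfl
  | succ k ih => rw [Function.iterate_succ_apply', Function.iterate_succ_apply', ih, Ti_cast]

lemma zmod_eq (a b : ℕ) : ((a : ℤ) : ZMod 2) = ((b : ℤ) : ZMod 2) ↔ a % 2 = b % 2 := by
  push_cast
  exact ZMod.natCast_eq_natCast_iff' a b 2

/-- comparison of the two ways to write the blocks -/
lemma ncard_eq (n N : ℕ) (s : Set ℕ) :
    ((fun i : ℕ => fun j : Fin N => ((Ti^[i + j] (n : ℤ) : ℤ) : ZMod 2)) '' s).ncard =
      ((fun i : ℕ => fun j : Fin N => T^[i + j] n % 2) '' s).ncard := by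
  have hf : (fun i : ℕ => fun j : Fin N => T^[i + j] n % 2) =
      (fun v : Fin N → ZMod 2 => fun j => (v j).val) ∘
        (fun i : ℕ => fun j : Fin N => ((Ti^[i + j] (n : ℤ) : ℤ) : ZMod 2)) := by
    funext i
    funext j
    simp only [Function.comp]
    rw [Ti_iter, Int.cast_natCast, ZMod.val_natCast]
  rw [hf, Set.image_comp]
  symm
  apply Set.ncard_image_of_injective
  intro v w hvw
  funext j
  exact ZMod.val_injective 2 (congrFun hvw j)

lemma blocks_eq (n N : ℕ) : Gc.blkAll 2 Ti n N = blocks n N := by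
  unfold Gc.blkAll blocks
  rw [← Set.image_univ, ← Set.image_univ]
  exact ncard_eq n N Set.univ

lemma blocksUpTo_eq (n h N : ℕ) : Gc.blk 2 Ti n h N = blocksUpTo n h N :=
  ncard_eq n N _

lemma div_iff (n : ℕ) : (∀ R : ℤ, ∃ k, R < |Ti^[k] (n : ℤ)|) ↔ ∀ M : ℕ, ∃ k, M < T^[k] n := by
  constructor
  · intro h M
    obtain ⟨k, hk⟩ := h M
    rw [Ti_iter, Nat.abs_cast] at hk
    exact ⟨k, by exact_mod_cast hk⟩
  · intro h R
    obtain ⟨k, hk⟩ := h R.toNat
    refine ⟨k, ?_⟩
    rw [Ti_iter, Nat.abs_cast]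
    omega

lemma T_sub (n j : ℕ) : ∃ k, g^[k] n = T^[j] n := by
  induction j with
  | zero => exact ⟨0, rfl⟩
  | succ j ih =>
    obtain ⟨k, hk⟩ := ih
    rw [Function.iterate_succ_apply', ← hk]
    rcases (by omega : g^[k] n % 2 = 0 ∨ g^[k] n % 2 = 1) with h | h
    · refine ⟨k + 1, ?_⟩
      rw [Function.iterate_succ_apply']
      unfold g T at *
      rw [if_pos h, if_pos h]
    · refine ⟨k + 2, ?_⟩
      rw [Function.iterate_succ_apply', Function.iterate_succ_apply']
      generalize g^[k] n = m at *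
      unfold g T
      rw [if_neg (show ¬ m % 2 = 0 by omega), if_neg (show ¬ m % 2 = 0 by omega), if_pos (by omega)]

lemma g_sub (n k : ℕ) : ∃ j, g^[k] n = T^[j] n ∨
    (T^[j] n % 2 = 1 ∧ g^[k] n = 7 * T^[j] n + 1) := by
  induction k with
  | zero => exact ⟨0, Or.inl rfl⟩
  | succ k ih =>
    obtain ⟨j, h | ⟨h1, h2⟩⟩ := ih
    · rw [Function.iterate_succ_apply', h]
      rcases (by omega : T^[j] n % 2 = 0 ∨ T^[j] n % 2 = 1) with h1 | h1
      · refine ⟨j + 1, Or.inl ?_⟩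
        rw [Function.iterate_succ_apply']
        generalize T^[j] n = m at *
        unfold g T
        rw [if_pos h1, if_pos h1]
      · refine ⟨j, Or.inr ⟨h1, ?_⟩⟩
        generalize T^[j] n = m at *
        unfold g
        rw [if_neg (by omega)]
    · refine ⟨j + 1, Or.inl ?_⟩
      rw [Function.iterate_succ_apply', h2, Function.iterate_succ_apply']
      generalize T^[j] n = m at *
      unfold g T
      rw [if_pos (by omega), if_neg (by omega)]

lemma gT (n : ℕ) : (∀ M : ℕ, ∃ k, M < g^[k] n) ↔ ∀ M : ℕ, ∃ k, M < T^[k] n := by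
  constructor
  · intro h M
    obtain ⟨k, hk⟩ := h (7 * M + 1)
    obtain ⟨j, h1 | ⟨-, h1⟩⟩ := g_sub n k
    · exact ⟨j, by omega⟩
    · exact ⟨j, by omega⟩
  · intro h M
    obtain ⟨j, hj⟩ := h M
    obtain ⟨k, hk⟩ := T_sub n j
    exact ⟨k, by omega⟩

/-- **Result.** (1) If the trajectory of `n` under `g` is divergent, then `blocks n N / N` tends to
infinity with `N`.

(2) For every `A > 0` there is `K` such that for every `N₀ ≥ K + 2` (and every `n ≤ 2 ^ N₀`, for
instance `n = 3`): the trajectory of `n` under `g` is divergent if and only if for every `N ≥ N₀` more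
than `A N` different blocks of `N` consecutive parities occur among the first `N ^ K` terms of the
trajectory of `n` under `T`.

(3) For every `A` there is `K` such that, for all `N ≥ K + 2`: if at most `A N` different blocks of
length `N` occur among the first `N ^ K` terms of the trajectory of `3` under `T`, then this
trajectory reaches, after at most `N ^ K` steps, a cycle of length at most `N ^ K`, and all its terms
are at most `2 ^ (K N)`. -/
theorem result :
    (∀ n : ℕ, (∀ M : ℕ, ∃ k, M < g^[k] n) →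
      Tendsto (fun N : ℕ => (blocks n N : ℝ) / N) atTop atTop) ∧
    (∀ A : ℝ, 0 < A → ∃ K : ℕ, ∀ n N₀ : ℕ, K + 2 ≤ N₀ → n ≤ 2 ^ N₀ →
      ((∀ M : ℕ, ∃ k, M < g^[k] n) ↔
        ∀ N : ℕ, N₀ ≤ N → A * N < blocksUpTo n (N ^ K) N)) ∧
    (∀ A : ℝ, 0 < A → ∃ K : ℕ, ((∀ M : ℕ, ∃ k, M < g^[k] 3) ↔
        ∀ N : ℕ, K + 2 ≤ N → A * N < blocksUpTo 3 (N ^ K) N)) ∧
    (∀ A : ℝ, ∃ K : ℕ, ∀ N : ℕ, K + 2 ≤ N → (blocksUpTo 3 (N ^ K) N : ℝ) ≤ A * N →
      (∃ i ≤ N ^ K, ∃ k, 1 ≤ k ∧ k ≤ N ^ K ∧ T^[k] (T^[i] 3) = T^[i] 3) ∧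
        ∀ j, T^[j] 3 ≤ 2 ^ (K * N)) := by
  have h2 : ∀ A : ℝ, 0 < A → ∃ K : ℕ, ∀ n N₀ : ℕ, K + 2 ≤ N₀ → n ≤ 2 ^ N₀ →
      ((∀ M : ℕ, ∃ k, M < g^[k] n) ↔
        ∀ N : ℕ, N₀ ≤ N → A * N < blocksUpTo n (N ^ K) N) := by
    intro A hA
    obtain ⟨K, hK⟩ := Gc.crit (d := 2) (q := 7) le_rfl (by norm_num) (by norm_num) hG A hA
    refine ⟨K, fun n N₀ h1 hn => ?_⟩
    rw [gT, ← div_iff, hK n N₀ (by omega) (by rw [Nat.abs_cast]; exact_mod_cast hn)]
    simp only [blocksUpTo_eq]
  have h3 : ∀ N : ℕ, 2 ≤ N → 3 ≤ 2 ^ N := fun N hN =>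
    le_trans (by norm_num : 3 ≤ 2 ^ 2) (Nat.pow_le_pow_right (by norm_num) hN)
  refine ⟨fun n hn => ?_, h2, fun A hA => ?_, fun A => ?_⟩
  · have := Gc.unb (d := 2) (q := 7) le_rfl (by norm_num) (by norm_num) hG
      ((div_iff n).2 ((gT n).1 hn))
    simpa only [blocks_eq] using this
  · obtain ⟨K, hK⟩ := h2 A hA
    exact ⟨K, hK 3 (K + 2) le_rfl (h3 _ (by omega))⟩
  · obtain ⟨K, hK⟩ := Gc.one (d := 2) (q := 7) le_rfl (by norm_num) (by norm_num) hG A
    refine ⟨K, fun N hN hb => ?_⟩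
    have e3 : |((3 : ℕ) : ℤ)| ≤ 2 ^ N := by
      rw [Nat.abs_cast]
      exact_mod_cast h3 N (by omega)
    obtain ⟨⟨i, hi, k, hk1, hk2, hk⟩, hj⟩ := hK ((3 : ℕ) : ℤ) N (by omega) e3
      (by rw [blocksUpTo_eq]; exact hb)
    refine ⟨⟨i, hi, k, hk1, hk2, ?_⟩, fun j => ?_⟩
    · rw [Ti_iter, Ti_iter] at hk
      exact_mod_cast hk
    · have := hj j
      rw [Ti_iter, Nat.abs_cast] at this
      exact_mod_cast this

end Pool.Agent.Results.MP_574b9b_nt.ParityBlocks
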